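import Mathlib
import Pool.Agent.R114.Cyc.Main

/-!
# Rational positive semidefinite completion on the 5-cycle

Vertices are the elements of `Fin 5` (integers modulo 5) and the edges of the cycle are
`{i, i + 1}`; `x i` is the prescribed entry on the edge `{i, i + 1}`.
-/

set_option autoImplicit false

namespace Pool.Agent.Results.MP_dcc435_co.RationalCompletion

/-- `X` is a (real) psd completion of `x`: it is positive semidefinite (in particular symmetric),
has ones on the diagonal and the entry `x i` at the edge `{i, i + 1}` of the 5-cycle. -/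
def IsCompletion (x : Fin 5 → ℝ) (X : Matrix (Fin 5) (Fin 5) ℝ) : Prop :=
  X.PosSemidef ∧ (∀ i, X i i = 1) ∧ ∀ i, X i (i + 1) = x i

/-- **Rational completion on the 5-cycle.** If a rational vector `x`, indexed by the edges of the
5-cycle, has a real psd completion, then it has a psd completion all of whose entries are
rational. -/
theorem result (x : Fin 5 → ℚ)
    (h : ∃ X : Matrix (Fin 5) (Fin 5) ℝ, IsCompletion (fun i => (x i : ℝ)) X) :
    ∃ Y : Matrix (Fin 5) (Fin 5) ℚ,
      IsCompletion (fun i => (x i : ℝ)) (Y.map (fun q => (q : ℝ))) := by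
  obtain ⟨X, h1, h2, h3⟩ := h
  obtain ⟨Y, h4, h5, h6⟩ := Pool.Agent.R114.Cyc.main x ⟨X, h1, h2, h3⟩
  refine ⟨Y, h4, fun i => ?_, fun i => ?_⟩
  · simp [h5]
  · simp [h6]

end Pool.Agent.Results.MP_dcc435_co.RationalCompletion
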